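import Pool.Agent.helper97.KR.Spec

set_option autoImplicit false

namespace Pool.Agent.helper97.KR

open Finset Classical

noncomputable section

theorem D4P : D4P_stmt := by
  intro V E ends S F v a b x1 x2 u2 u3 d
  have hx1 : x1 ∈ F ∧ v ∈ ends x1 := (d.all x1).2 (Or.inl rfl)
  have hx2 : x2 ∈ F ∧ v ∈ ends x2 := (d.all x2).2 (Or.inr (Or.inl rfl))
  refine ⟨?_, ?_⟩
  · intro w hw
    unfold dgr
    apply Finset.card_le_card_of_injOn (fun e => if e = x1 ∧ w ≠ a then x2 else e)
    · intro e he
      have he' := (Finset.mem_filter.1 (Finset.mem_coe.1 he))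
      obtain ⟨h1, h2⟩ := he'
      have h3 : e ∈ F := (Finset.mem_sdiff.1 h1).1
      apply Finset.mem_coe.2
      by_cases hc : e = x1
      · subst hc
        rw [Function.update_self] at h2
        rcases Sym2.mem_iff.1 h2 with h | h
        · have : ¬ (e = e ∧ w ≠ a) := fun hh => hh.2 h
          show (if e = e ∧ w ≠ a then x2 else e) ∈ _
          rw [if_neg this]
          refine Finset.mem_filter.2 ⟨hx1.1, ?_⟩
          rw [d.e1, h]
          exact Sym2.mem_mk_right _ _
        · have : (e = e ∧ w ≠ a) := ⟨rfl, fun hh => d.ab (by rw [← hh, h])⟩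
          show (if e = e ∧ w ≠ a then x2 else e) ∈ _
          rw [if_pos this]
          refine Finset.mem_filter.2 ⟨hx2.1, ?_⟩
          rw [d.e2, h]
          exact Sym2.mem_mk_right _ _
      · have : ¬ (e = x1 ∧ w ≠ a) := fun hh => hc hh.1
        show (if e = x1 ∧ w ≠ a then x2 else e) ∈ _
        rw [if_neg this]
        rw [Function.update_of_ne hc] at h2
        exact Finset.mem_filter.2 ⟨h3, h2⟩
    · intro e he e' he' hee
      have k1 := (Finset.mem_filter.1 (Finset.mem_coe.1 he)).1
      have k2 := (Finset.mem_filter.1 (Finset.mem_coe.1 he')).1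
      have n1 : e ≠ x2 := by
        intro h
        exact (Finset.mem_sdiff.1 k1).2 (by simp [h])
      have n2 : e' ≠ x2 := by
        intro h
        exact (Finset.mem_sdiff.1 k2).2 (by simp [h])
      change (if e = x1 ∧ w ≠ a then x2 else e) = (if e' = x1 ∧ w ≠ a then x2 else e') at hee
      by_cases c1 : e = x1 ∧ w ≠ a
      · by_cases c2 : e' = x1 ∧ w ≠ a
        · rw [c1.1, c2.1]
        · rw [if_pos c1, if_neg c2] at hee
          exact absurd hee.symm n2
      · by_cases c2 : e' = x1 ∧ w ≠ a
        · rw [if_neg c1, if_pos c2] at hee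
          exact absurd hee n1
        · rw [if_neg c1, if_neg c2] at hee
          exact hee
  · rintro w hw w' hw' ⟨e, he, hee⟩
    have hv : v ∉ ends e := by
      rw [hee]
      intro h
      rcases Sym2.mem_iff.1 h with h | h
      · exact (Finset.mem_erase.1 hw).1 h.symm
      · exact (Finset.mem_erase.1 hw').1 h.symm
    have hn : ¬ (e = x1 ∨ e = x2 ∨ e = u2 ∨ e = u3) := fun h => hv ((d.all e).2 h).2
    have m1 : e ≠ x1 := fun h => hn (Or.inl h)
    have m2 : e ≠ x2 := fun h => hn (Or.inr (Or.inl h))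
    have m3 : e ≠ u2 := fun h => hn (Or.inr (Or.inr (Or.inl h)))
    have m4 : e ≠ u3 := fun h => hn (Or.inr (Or.inr (Or.inr h)))
    refine ⟨e, Finset.mem_sdiff.2 ⟨he, ?_⟩, ?_⟩
    · simp [m2, m3, m4]
    · rw [Function.update_of_ne m1]
      exact hee

end

end Pool.Agent.helper97.KR
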